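import Pool.Agent.W2helper57.LC.Stm

/-!
# The complete languages (pieces KC and KM)
-/

set_option autoImplicit false

namespace Pool.Agent.W2helper95.LC

open Pool.Agent.NPC Pool.Agent.H620R2.Gauge Pool.Agent.H622R2 Pool.Agent.H591R3.PHG
  Pool.Agent.W2helper57.LC Pool.Agent.W2helper58.GU Pool.Agent.TH678.GC

/-- Only the values at short strings matter. -/
theorem quant_cong {m L : ℕ} {V V' : List Bool → List Bool}
    (h : ∀ y : List Bool, y.length ≤ L → (V y = [true] ↔ V' y = [true])) :
    ∀ (k : ℕ) (b : Bool) (y : List Bool), y.length + k * (2 * m + 1) ≤ L →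
      (Quant m V k b y ↔ Quant m V' k b y) := by
  intro k
  induction k with
  | zero =>
    intro b y hy
    rw [zero_mul, add_zero] at hy
    cases b <;> exact h y hy
  | succ k ih =>
    intro b y hy
    have key : ∀ w : List Bool, w.length ≤ m →
        (pairBits w y).length + k * (2 * m + 1) ≤ L := by
      intro w hw
      rw [A2.length_pairBits]
      have : (k + 1) * (2 * m + 1) = k * (2 * m + 1) + (2 * m + 1) := by ring
      omega
    cases b with
    | true =>
      exact exists_congr fun w => and_congr_right fun hw => ih false _ (key w hw)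
    | false =>
      exact forall_congr' fun w => imp_congr_right fun hw => ih true _ (key w hw)

theorem poly_rep {α : Type} [TEnc α] {n : α → ℕ} (hn : UPoly n) :
    Poly (fun a => List.replicate (n a) true) :=
  (NPC.Poly.map (F := fun _ _ => true) hn (NPC.Poly.const true)).congr fun a => by
    simp [List.map_replicate]

/-- Piece KC. -/
theorem kc : S_KC := by
  intro k S hS
  obtain ⟨V, p, ⟨M, hM⟩, hS⟩ := hS
  obtain ⟨T, hT⟩ := exists_time M
  obtain ⟨h, κ, hh⟩ := exists_desc [] [] [] (by simp) M
  set R : Polynomial ℕ := T.comp (Polynomial.X + Polynomial.C k * (Polynomial.C 2 * p + 1)) +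
    Polynomial.C κ with hR
  refine ⟨fun x => pairBits h (pairBits x (pairBits (List.replicate (p.eval x.length) true)
    (List.replicate (R.eval x.length) true))), ?_, fun A x => ?_⟩
  · exact poly_pairBits (NPC.Poly.const _) (poly_pairBits Poly.id (poly_pairBits
      (poly_rep ((UPoly.length Poly.id).eval p)) (poly_rep ((UPoly.length Poly.id).eval R))))
  · rw [hS]
    unfold Kk
    simp only [Set.mem_ofPred_eq, unpair_pairBits, List.length_replicate]
    have hRe : R.eval x.length = T.eval (x.length + k * (2 * p.eval x.length + 1)) + κ := by
      rw [hR]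
      simp only [Polynomial.eval_add, Polynomial.eval_comp, Polynomial.eval_mul, Polynomial.eval_C,
        Polynomial.eval_X, Polynomial.eval_one]
    refine quant_cong (L := x.length + k * (2 * p.eval x.length + 1)) ?_ k true x le_rfl
    intro y hy
    have h1 := eval_mono T hy
    have h0 : ev h y (R.eval x.length) A = true :: V A y := by
      have e1 := hh (R.eval x.length) (by omega) y A
      rw [List.map_nil, if_pos rfl, List.length_nil, Nat.sub_zero] at e1
      rw [e1]
      exact hT A y (V A y) _ _ (by omega) (by omega) (hM A y)
    rw [h0]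
    by_cases h2 : V A y = [true]
    · rw [h2, if_pos rfl]
    · rw [if_neg (fun h3 => h2 (by simpa using h3))]
      simp [h2]

/-- Piece KM. -/
theorem km (hgtn : S_GTN) : S_KM := by
  intro X k hX
  have h1 : IsFP X (ue Dh X) := isFP_ue Dh X hX
  -- the input is `⟨z, y⟩`
  have hz : Poly (fun q : List Bool => (unpair q).1) := Poly.fst poly_unpair
  have hy : Poly (fun q : List Bool => (unpair q).2) := Poly.snd poly_unpair
  have hτ : Poly (fun q : List Bool => (unpair (unpair (unpair q).2).2).2) :=
    hy.comp (hy.comp hy)
  have hμ : Poly (fun q : List Bool => (unpair (unpair (unpair q).2).2).1) :=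
    hz.comp (hy.comp hy)
  have h2 : IsFP X (fun q => ue Dh X (pairBits (unpair (unpair q).1).1 (pairBits (unpair q).2
      (unpair (unpair (unpair (unpair q).1).2).2).2))) :=
    IsFP.comp h1 (IsFP.of_poly (poly_pairBits (hz.comp hz) (poly_pairBits hy (hτ.comp hz))))
  have h3 : IsFP X (fun q => if ue Dh X (pairBits (unpair (unpair q).1).1 (pairBits (unpair q).2
      (unpair (unpair (unpair (unpair q).1).2).2).2)) = [true, true] then [true] else []) :=
    IsFP.comp (G := fun v => if v = [true, true] then [true] else []) (IsFP.of_poly
      (Poly.ite (Poly.decide_eq Poly.id (NPC.Poly.const [true, true])) (NPC.Poly.const [true])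
        (NPC.Poly.const []))) h2
  have h4 := hgtn X k _ (fun z => (unpair (unpair (unpair z).2).2).1.length)
    (fun z => (unpair (unpair z).2).1) h3 (UPoly.length hμ) (hz.comp hy)
  have h5 : Kk k X = {z | Quant (unpair (unpair (unpair z).2).2).1.length
      (fun y => if ue Dh X (pairBits (unpair (unpair (pairBits z y)).1).1
        (pairBits (unpair (pairBits z y)).2
          (unpair (unpair (unpair (unpair (pairBits z y)).1).2).2).2)) = [true, true] then [true]
        else []) k true (unpair (unpair z).2).1} := by
    unfold Kk
    ext z
    simp only [Set.mem_ofPred_eq, unpair_pairBits]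
    have e : (fun y => if ev (unpair z).1 y (unpair (unpair (unpair z).2).2).2.length X =
        [true, true] then [true] else []) =
        (fun y => if ue Dh X (pairBits (unpair z).1
        (pairBits y (unpair (unpair (unpair z).2).2).2)) = [true, true] then [true]
        else []) := by
      funext y
      unfold Pool.Agent.W2helper58.GU.ev ue dx tm
      simp only [unpair_pairBits]
    rw [e]
  rw [h5]
  exact h4

end Pool.Agent.W2helper95.LC
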