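import Pool.Agent.W2helper57.LC.Stm
import Pool.Agent.H591R3.PHG.LangSig

/-!
# Uniform algorithms: a loop and the substitution of an oracle (pieces SUB and LOOP)
-/

set_option autoImplicit false

namespace Pool.Agent.W2helper95.LC

open Pool.Agent.NPC Pool.Agent.H620R2.Gauge Pool.Agent.H622R2 Pool.Agent.H591R3.PHG
  Pool.Agent.W2helper57.LC

/-- Piece LOOP. -/
theorem loop : S_LOOP := by
  intro S g T b hS hg hb
  obtain ⟨M, hM⟩ := hS
  refine ⟨R1.loopAlg M hg T b (T * M.p.comp b + 1), fun A x => ?_⟩
  have key : ∀ (j i : ℕ), i + j = T.eval x.length → ∀ a : List Bool,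
      R1.st M.D g b x a = (List.replicate i true, (S A)^[i] (g x), []) →
      ∀ m ≥ j * M.p.eval (b.eval x.length) + 1,
        (R1.loopAlg M hg T b (T * M.p.comp b + 1)).run A x m a =
          some ((S A)^[T.eval x.length] (g x)) := by
    intro j
    induction j with
    | zero =>
      intro i hi a ha m hm
      obtain ⟨m, rfl⟩ : ∃ m', m = m' + 1 := ⟨m - 1, by omega⟩
      rw [add_zero] at hi
      rw [A2.run_succ, R1.loopAlg_D, ha]
      have hact : R1.act M.D T x (List.replicate i true, (S A)^[i] (g x), []) =
          true :: (S A)^[i] (g x) := by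
        unfold R1.act
        exact if_pos (by simp [hi])
      rw [hact, if_neg (by simp), List.tail_cons, hi]
    | succ j ih =>
      intro i hi a ha m hm
      have h1 := hM A ((S A)^[i] (g x))
      have h2 := hb A x i (by omega)
      have h3 := hb A x (i + 1) (by omega)
      rw [Function.iterate_succ_apply'] at h3
      have h4 := eval_mono M.p h2
      refine R1.one_run M hg T b (T * M.p.comp b + 1) A x (List.replicate i true)
        ((S A)^[i] (g x)) (S A ((S A)^[i] (g x))) _ (j * M.p.eval (b.eval x.length) + 1) ?_ ?_ _
        [] a ha h1 m ?_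
      · rw [List.length_replicate]
        omega
      · intro a' m' hm' ha'
        refine ih (i + 1) (by omega) a' ?_ m' hm'
        rw [ha', List.take_of_length_le h3, Function.iterate_succ_apply', List.replicate_succ]
      · have : (j + 1) * M.p.eval (b.eval x.length) =
            j * M.p.eval (b.eval x.length) + M.p.eval (b.eval x.length) := by ring
        omega
  refine key (T.eval x.length) 0 (by omega) [] rfl _ ?_
  change (T * M.p.comp b + 1).eval x.length ≥ _
  rw [Polynomial.eval_add, Polynomial.eval_mul, Polynomial.eval_comp, Polynomial.eval_one]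

/-- The action of the algorithm with the next action function `D` in the state `s`, which is
the pair of `⟨parameter, input⟩` and the answers. -/
def actS (D : List Bool → List Bool) (s : List Bool) : List Bool :=
  D (pairBits (unpair (unpair s).1).2 (unpair s).2)

/-- One step of the simulation, given the value `v` of the oracle algorithm. -/
def stepS (D : List Bool → List Bool) (s v : List Bool) : List Bool :=
  if (actS D s).head? = some false then
    pairBits (unpair s).1 ((unpair s).2 ++ [decide (v = [true])]) else s

/-- The question of the simulation. -/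
def queS (D : List Bool → List Bool) (s : List Bool) : List Bool :=
  pairBits (unpair (unpair s).1).1 (actS D s).tail

theorem poly_actS {D : List Bool → List Bool} (hD : Poly D) : Poly (actS D) := by
  have h1 : Poly (fun s => (unpair s).1) := Poly.fst poly_unpair
  have h2 : Poly (fun s => (unpair s).2) := Poly.snd poly_unpair
  exact hD.comp (poly_pairBits (h2.comp h1) h2)

theorem poly_queS {D : List Bool → List Bool} (hD : Poly D) : Poly (queS D) := by
  have h1 : Poly (fun s => (unpair s).1) := Poly.fst poly_unpair
  exact poly_pairBits (h1.comp h1) (Poly.tail (poly_actS hD))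

theorem poly_stepS {D : List Bool → List Bool} (hD : Poly D) :
    Poly (fun p : List Bool × List Bool => stepS D p.1 p.2) := by
  have h1 : Poly (fun s => (unpair s).1) := Poly.fst poly_unpair
  have h2 : Poly (fun s => (unpair s).2) := Poly.snd poly_unpair
  have f1 : Poly (fun p : List Bool × List Bool => p.1) := Poly.fst Poly.id
  have f2 : Poly (fun p : List Bool × List Bool => p.2) := Poly.snd Poly.id
  refine Poly.ite (Poly.decide_eq (Poly.head? ((poly_actS hD).comp f1)) (NPC.Poly.const _))
    (poly_pairBits (h1.comp f1) (Poly.append (h2.comp f1)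
      (Poly.cons (Poly.decide_eq f2 (NPC.Poly.const [true])) (NPC.Poly.const [])))) f1

theorem ufp_id (htt : S_TT) : UFP (fun _ x => x) :=
  htt (fun _ => []) (fun p => p.1) (NPC.Poly.const []) (Poly.fst Poly.id)

theorem ufp_one (hseq : S_SEQ) (htt : S_TT) {Q : Oracle → List Bool → List Bool} (hQ : UFP Q)
    {q : List Bool → List Bool} {f : List Bool → List Bool → List Bool} (hq : Poly q)
    (hf : Poly (fun p : List Bool × List Bool => f p.1 p.2)) :
    UFP (fun A s => f s (Q A (q s))) := by
  have h1 : Poly (fun p : List Bool × List Bool => q p.1) :=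
    Poly.comp (f := fun p : List Bool × List Bool => p.1) hq (Poly.fst Poly.id)
  have h2 : Poly (fun p : List Bool × List Bool × List Bool => f p.1 p.2.2) :=
    Poly.comp (g := fun p : List Bool × List Bool => f p.1 p.2)
      (f := fun p : List Bool × List Bool × List Bool => (p.1, p.2.2)) hf
      (Poly.pair (Poly.fst Poly.id) (Poly.snd (Poly.snd Poly.id)))
  exact hseq (fun _ x => x) Q (fun p => q p.1) (fun p => f p.1 p.2.2) (ufp_id htt) hQ h1 h2

theorem ufp_post (hseq : S_SEQ) (htt : S_TT) {Q : Oracle → List Bool → List Bool} (hQ : UFP Q)
    {f : List Bool → List Bool} (hf : Poly f) : UFP (fun A s => f (Q A s)) := by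
  have h2 : Poly (fun p : List Bool × List Bool × List Bool => f p.2.1) :=
    Poly.comp (f := fun p : List Bool × List Bool × List Bool => p.2.1) hf
      (Poly.fst (Poly.snd Poly.id))
  exact hseq Q (fun _ x => x) (fun p => p.1) (fun p => f p.2.1) hQ (ufp_id htt)
    (Poly.fst Poly.id) h2

/-- Piece SUB. -/
theorem sub (hseq : S_SEQ) (htt : S_TT) : S_SUB := by
  intro F Q hF hQ
  obtain ⟨M, hM⟩ := hF
  have hD : Poly M.D := poly_of_polyTime M.poly
  -- the step
  have hstep : UFP (fun A s => stepS M.D s (Q A (queS M.D s))) :=
    ufp_one hseq htt hQ (poly_queS hD) (poly_stepS hD)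
  -- the states
  set B : Oracle → List Bool → Oracle :=
    fun A z q => decide (Q A (pairBits (unpair z).1 q) = [true]) with hB
  have hst : ∀ (A : Oracle) (z : List Bool) (i : ℕ), ∃ a : List Bool, a.length ≤ i ∧
      (fun s => stepS M.D s (Q A (queS M.D s)))^[i] (pairBits z []) = pairBits z a := by
    intro A z i
    induction i with
    | zero => exact ⟨[], by simp, rfl⟩
    | succ i ih =>
      obtain ⟨a, ha, h⟩ := ih
      rw [Function.iterate_succ_apply', h]
      unfold stepS
      rw [unpair_pairBits]
      by_cases h1 : (actS M.D (pairBits z a)).head? = some false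
      · refine ⟨a ++ [decide (Q A (queS M.D (pairBits z a)) = [true])], by simpa using ha, ?_⟩
        simp only
        rw [if_pos h1]
      · refine ⟨a, by omega, ?_⟩
        simp only
        rw [if_neg h1]
  -- the loop
  have hinit : Poly (fun z : List Bool => pairBits z []) :=
    poly_pairBits Poly.id (NPC.Poly.const [])
  have hloop := loop (fun A s => stepS M.D s (Q A (queS M.D s))) (fun z => pairBits z []) M.p
    (Polynomial.C 2 * Polynomial.X + M.p + 1) hstep hinit
    (by
      intro A z i hi
      obtain ⟨a, ha, h⟩ := hst A z i
      rw [h, A2.length_pairBits]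
      simp only [Polynomial.eval_add, Polynomial.eval_mul, Polynomial.eval_C, Polynomial.eval_X,
        Polynomial.eval_one]
      omega)
  -- the output
  have hout := ufp_post hseq htt hloop (Poly.tail (poly_actS hD))
  have hrun : ∀ (A : Oracle) (z : List Bool) (n : ℕ) (a w : List Bool),
      M.run (B A z) (unpair z).2 n a = some w → ∀ m ≥ n,
      (actS M.D ((fun s => stepS M.D s (Q A (queS M.D s)))^[m] (pairBits z a))).tail = w := by
    intro A z n
    induction n with
    | zero => intro a w h; simp [Alg.run] at h
    | succ n ih =>
      intro a w h m hm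
      rw [A2.run_succ] at h
      have hact : actS M.D (pairBits z a) = M.D (pairBits (unpair z).2 a) := by
        unfold actS
        rw [unpair_pairBits]
      by_cases h1 : (M.D (pairBits (unpair z).2 a)).head? = some false
      · rw [if_pos h1] at h
        obtain ⟨m, rfl⟩ : ∃ m', m = m' + 1 := ⟨m - 1, by omega⟩
        rw [Function.iterate_succ_apply]
        have h2 : stepS M.D (pairBits z a) (Q A (queS M.D (pairBits z a))) =
            pairBits z (a ++ [B A z (M.D (pairBits (unpair z).2 a)).tail]) := by
          unfold stepS
          rw [hact, if_pos h1]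
          unfold queS
          rw [hact, unpair_pairBits]
        rw [h2]
        exact ih _ _ h m (by omega)
      · rw [if_neg h1] at h
        have h2 : ∀ m, (fun s => stepS M.D s (Q A (queS M.D s)))^[m] (pairBits z a) =
            pairBits z a := by
          intro m
          refine Function.iterate_fixed ?_ m
          change stepS M.D (pairBits z a) (Q A (queS M.D (pairBits z a))) = _
          unfold stepS
          rw [hact, if_neg h1]
        rw [h2, hact]
        simpa using h
  obtain ⟨N, hN⟩ := hout
  refine ⟨N, fun A z => ?_⟩
  rw [hN A z]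
  congr 1
  have h1 := hM (B A z) (unpair z).2
  refine hrun A z _ [] _ h1 _ ?_
  apply eval_mono
  have := LangSig.length_unpair z
  omega

end Pool.Agent.W2helper95.LC
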